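import Pool.Agent.V11111.AW.Fin
import Pool.Agent.V11111.AW.Masa

/-!
Every infinite AW*-factor is clean.
-/

set_option autoImplicit false

namespace Pool.Agent.Results.MP_3fc7b1_an.InfiniteFactorClean

/-- `B` is a maximal commutative self-adjoint subalgebra of `A`. -/
def IsMaxComm {A : Type*} [CStarAlgebra A] (B : StarSubalgebra ℂ A) : Prop :=
  (∀ x ∈ B, ∀ y ∈ B, x * y = y * x) ∧
  ∀ C : StarSubalgebra ℂ A, (∀ x ∈ C, ∀ y ∈ C, x * y = y * x) → B ≤ C → C = B

/-- `e` is the least upper bound of the set `S` of projections, in the partially ordered set of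
projections (`p ≤ q` meaning `q * p = p`). -/
def IsLubProj {A : Type*} [CStarAlgebra A] (S : Set A) (e : A) : Prop :=
  IsStarProjection e ∧ (∀ p ∈ S, e * p = p) ∧
  ∀ f : A, IsStarProjection f → (∀ p ∈ S, f * p = p) → f * e = e

/-- AW*-algebras: every family of pairwise orthogonal projections has a least upper bound, and
every maximal commutative self-adjoint subalgebra is generated by its projections. -/
def IsAWStar (A : Type*) [CStarAlgebra A] : Prop :=
  (∀ S : Set A, (∀ p ∈ S, IsStarProjection p) → (∀ p ∈ S, ∀ q ∈ S, p ≠ q → p * q = 0) →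
    ∃ e : A, IsLubProj S e) ∧
  (∀ B : StarSubalgebra ℂ A, IsMaxComm B →
    B = (StarAlgebra.adjoin ℂ {p : A | p ∈ B ∧ IsStarProjection p}).topologicalClosure)

/-- The center consists of the scalars. -/
def IsFactor (A : Type*) [CStarAlgebra A] : Prop :=
  ∀ z : A, (∀ x : A, z * x = x * z) → ∃ c : ℂ, z = c • (1 : A)

/-- The identity is equivalent to a proper subprojection. -/
def IsInfinite (A : Type*) [CStarAlgebra A] : Prop :=
  ∃ v : A, star v * v = 1 ∧ v * star v ≠ 1

/-- Clean rings. -/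
def IsClean (R : Type*) [Ring R] : Prop :=
  ∀ x : R, ∃ u e : R, IsUnit u ∧ e * e = e ∧ x = u + e

open Pool.Agent.V11111.AW in
lemma pr_iff {A : Type*} [CStarAlgebra A] (p : A) : IsStarProjection p ↔ Pr p :=
  ⟨fun h => ⟨h.isSelfAdjoint, h.isIdempotentElem⟩, fun h => ⟨h.2, h.1⟩⟩

open Pool.Agent.V11111.AW in
/-- Every infinite AW*-factor is clean. -/
theorem result (A : Type*) [CStarAlgebra A] (hA : IsAWStar A) (hF : IsFactor A)
    (hI : IsInfinite A) : IsClean A := by
  obtain ⟨hsup, hgen⟩ := hA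
  have hB : Baer A := by
    refine baer_of_aw ?_ ?_
    · intro B hB
      have := hgen B hB
      have h2 : {p : A | p ∈ B ∧ IsStarProjection p} = {p : A | p ∈ B ∧ Pr p} := by
        ext p; simp only [Set.mem_setOf_eq, pr_iff]
      rwa [h2] at this
    · intro S h1 h2
      obtain ⟨e, he, h3, h4⟩ := hsup S (fun p hp => (pr_iff p).2 (h1 p hp)) h2
      exact ⟨e, (pr_iff e).1 he, h3, fun f hf => h4 f ((pr_iff f).2 hf)⟩
  have hP : Prime' A := prime_of_center hB hF
  obtain ⟨v, hv, hv'⟩ := hI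
  intro x
  obtain ⟨e, he, hu⟩ := baer_clean hB hP hv hv' x
  exact ⟨x - e, e, hu, he, by abel⟩

end Pool.Agent.Results.MP_3fc7b1_an.InfiniteFactorClean
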